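import Pool.Agent.helper89.PU.Spec1

/-!
Row BUN of project PU: the power `p` of a unipotent matrix modulo the maximal ideal.
-/

set_option autoImplicit false

namespace Pool.Agent.PV

open Matrix Polynomial Pool.Agent.GO Pool.Agent.AR Pool.Agent.RG Pool.Agent.HZ Pool.Agent.DS
  Pool.Agent.AX Pool.Agent.UM Pool.Agent.PU MeasureTheory NumberField

section BUN_alg

variable {κ : Type} [Field κ]

theorem BUN_sq (N : Matrix (Fin 2) (Fin 2) κ) (hd : N.det = 0) : N * N = N.trace • N := by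
  rw [Matrix.det_fin_two] at hd
  rw [Matrix.trace_fin_two]
  ext i j
  fin_cases i <;> fin_cases j <;>
    simp only [Matrix.mul_apply, Fin.sum_univ_two, Matrix.smul_apply, smul_eq_mul, Fin.mk_zero,
      Fin.mk_one, Fin.isValue] <;>
    first
    | linear_combination (-1 : κ) * hd
    | ring

theorem BUN_pow (N : Matrix (Fin 2) (Fin 2) κ) (hd : N.det = 0) (n : ℕ) :
    N ^ (n + 1) = N.trace ^ n • N := by
  induction n with
  | zero => simp
  | succ n ih =>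
    rw [pow_succ, ih, Matrix.smul_mul, BUN_sq N hd, smul_smul, ← pow_succ]

theorem BUN_nil (N : Matrix (Fin 2) (Fin 2) κ) (n : ℕ) (h : N ^ (n + 1) = 0) : N * N = 0 := by
  have hd : N.det = 0 := by
    have h1 : N.det ^ (n + 1) = 0 := by
      rw [← Matrix.det_pow, h, Matrix.det_zero]
    exact pow_eq_zero_iff (Nat.succ_ne_zero n) |>.1 h1
  rw [BUN_pow N hd, smul_eq_zero] at h
  rcases h with h | h
  · rw [BUN_sq N hd, eq_zero_of_pow_eq_zero h, zero_smul]
  · rw [h, Matrix.mul_zero]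

theorem BUN_coord (N : Matrix (Fin 2) (Fin 2) κ) (h : N * N = 0) (h01 : N 0 1 = 0)
    (h10 : N 1 0 = 0) (hdd : N 0 0 = N 1 1) : N = 0 := by
  have h1 : (N * N) 0 0 = 0 := by rw [h]; rfl
  rw [Matrix.mul_apply, Fin.sum_univ_two, h01, zero_mul, add_zero, mul_self_eq_zero] at h1
  ext i j
  fin_cases i <;> fin_cases j
  · exact h1
  · exact h01
  · exact h10
  · exact hdd ▸ h1

end BUN_alg

section BUN_norm

variable {F : Type} [NormedField F] [IsUltrametricDist F]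

theorem BUN_npow (Y : Matrix (Fin 2) (Fin 2) F) (hY : ∀ i j, ‖Y i j‖ ≤ 1) (ω : ℝ)
    (hω : ∀ i j, ‖(Y * Y) i j‖ ≤ ω) (n : ℕ) :
    (∀ i j, ‖(Y ^ (2 * n)) i j‖ ≤ ω ^ n) ∧ (∀ i j, ‖(Y ^ (2 * n + 1)) i j‖ ≤ ω ^ n) := by
  have h1 : ∀ n, ∀ i j, ‖(Y ^ (2 * n)) i j‖ ≤ ω ^ n := by
    intro n
    induction n with
    | zero =>
      intro i j
      rw [mul_zero, pow_zero, pow_zero, Matrix.one_apply]
      split_ifs <;> simp
    | succ n ih =>
      intro i j
      have e : Y ^ (2 * (n + 1)) = Y ^ (2 * n) * (Y * Y) := by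
        rw [← pow_two, ← pow_add]; ring_nf
      rw [e, pow_succ]
      exact entry_mul_le ih hω i j
  refine ⟨h1 n, fun i j => ?_⟩
  rw [pow_succ, ← mul_one (ω ^ n)]
  exact entry_mul_le (h1 n) hY i j

theorem BUN_npow' (Y : Matrix (Fin 2) (Fin 2) F) (hY : ∀ i j, ‖Y i j‖ ≤ 1) (ω : ℝ)
    (hω : ∀ i j, ‖(Y * Y) i j‖ ≤ ω) (n : ℕ) (i j : Fin 2) : ‖(Y ^ n) i j‖ ≤ ω ^ (n / 2) := by
  rcases Nat.even_or_odd' n with ⟨k, rfl | rfl⟩
  · rw [Nat.mul_div_cancel_left _ (by norm_num)]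
    exact (BUN_npow Y hY ω hω k).1 i j
  · rw [show (2 * k + 1) / 2 = k by omega]
    exact (BUN_npow Y hY ω hω k).2 i j

omit [IsUltrametricDist F] in
/-- the binomial expansion -/
theorem BUN_bin (Y : Matrix (Fin 2) (Fin 2) F) (m : ℕ) :
    (1 + Y) ^ (m + 2) = (∑ k ∈ Finset.range (m + 1),
      ((m + 2).choose (k + 2) : F) • Y ^ (k + 2)) + ((m + 2 : ℕ) : F) • Y + 1 := by
  rw [add_comm (1 : Matrix (Fin 2) (Fin 2) F) Y, (Commute.one_right Y).add_pow,
    Finset.sum_range_succ', Finset.sum_range_succ']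
  have e : ∀ k : ℕ, Y ^ (k + 1 + 1) * 1 ^ (m + 2 - (k + 1 + 1)) * ((m + 2).choose (k + 1 + 1) : ℕ) =
      ((m + 2).choose (k + 2) : F) • Y ^ (k + 2) := by
    intro k
    rw [one_pow, mul_one, Nat.cast_smul_eq_nsmul, nsmul_eq_mul, Nat.cast_comm]
  rw [Finset.sum_congr rfl fun k _ => e k]
  congr 1
  · congr 1
    rw [one_pow, mul_one, zero_add, pow_one, Nat.choose_one_right, Nat.cast_smul_eq_nsmul,
      nsmul_eq_mul, Nat.cast_comm]
  · simp

end BUN_norm

theorem BUN (hDSC : DSC_stmt) : BUN_stmt := by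
  intro p hp F κ _ _ _ _ _ red hred d hd hpd M hM hne hpow
  have : IsUltrametricDist F := ultra p F
  have hp2 : 2 ≤ p := hp.1.two_le
  have hp0 : (0 : ℝ) < p := by exact_mod_cast (by omega : 0 < p)
  have hd1 : 1 ≤ d := (Nat.succ_le_of_lt (Module.finrank_pos (R := ℚ_[p]) (M := F))).trans hd
  -- reduction
  have h10 : red 0 = 0 := (hred.zero_iff 0 (by simp)).2 (by simp)
  have hsub : ∀ x y : F, ‖x‖ ≤ 1 → ‖y‖ ≤ 1 → red (x - y) = red x - red y := by
    intro x y hx hy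
    have h1 := hred.add (x - y) y (nsub hx hy) hy
    rw [sub_add_cancel] at h1
    rw [h1]; ring
  have hmulM : ∀ A B : Matrix (Fin 2) (Fin 2) F, (∀ i j, ‖A i j‖ ≤ 1) → (∀ i j, ‖B i j‖ ≤ 1) →
      (A * B).map red = A.map red * B.map red := by
    intro A B hA hB
    have h1 : ∀ a b c d, ‖A a b * B c d‖ ≤ 1 := fun a b c d => by
      simpa using nmul (hA a b) (hB c d)
    ext a b
    simp only [Matrix.map_apply, Matrix.mul_apply, Fin.sum_univ_two]
    rw [hred.add _ _ (h1 _ _ _ _) (h1 _ _ _ _), hred.mul _ _ (hA _ _) (hB _ _),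
      hred.mul _ _ (hA _ _) (hB _ _)]
  have h1F : ∀ i j : Fin 2, ‖(1 : Matrix (Fin 2) (Fin 2) F) i j‖ ≤ 1 := by
    intro i j
    rw [Matrix.one_apply]
    split_ifs <;> simp
  have hmap1 : (1 : Matrix (Fin 2) (Fin 2) F).map red = 1 := by
    ext i j
    rw [Matrix.map_apply, Matrix.one_apply, Matrix.one_apply]
    split_ifs
    · exact hred.one
    · exact h10
  set Y : Matrix (Fin 2) (Fin 2) F := M - 1 with hY
  have hYi : ∀ i j, ‖Y i j‖ ≤ 1 := fun i j => by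
    rw [hY, Matrix.sub_apply]
    exact nsub (hM i j) (h1F i j)
  set N : Matrix (Fin 2) (Fin 2) κ := Y.map red with hN
  have hN1 : N = M.map red - 1 := by
    rw [hN, ← hmap1]
    ext i j
    rw [Matrix.map_apply, hY, Matrix.sub_apply, Matrix.sub_apply, Matrix.map_apply,
      Matrix.map_apply]
    exact hsub _ _ (hM i j) (h1F i j)
  have hNp : N ^ p = 0 := by
    rw [hN1, sub_pow_char_of_commute p (Commute.one_right _), hpow, one_pow,
      sub_self]
  obtain ⟨m, rfl⟩ : ∃ m, p = m + 2 := ⟨p - 2, by omega⟩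
  have hNN : N * N = 0 := BUN_nil N (m + 1) hNp
  have hN0 : N ≠ 0 := by
    intro h
    rw [hN1, sub_eq_zero] at h
    exact hne h
  -- nu Y = 1
  have hnuY : nu Y = 1 := by
    refine le_antisymm (nu_le_of_entry hYi) ?_
    by_contra hlt
    rw [not_le] at hlt
    apply hN0
    refine BUN_coord N hNN ?_ ?_ ?_
    · exact (hred.zero_iff _ (hYi 0 1)).2 ((norm01_le Y).trans_lt hlt)
    · exact (hred.zero_iff _ (hYi 1 0)).2 ((norm10_le Y).trans_lt hlt)
    · have h3 := (hred.zero_iff _ (nsub (hYi 0 0) (hYi 1 1))).2 ((normd_le Y).trans_lt hlt)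
      rw [hsub _ _ (hYi 0 0) (hYi 1 1), sub_eq_zero] at h3
      exact h3
  -- the entries of Y * Y
  have hYY1 : ∀ i j, ‖(Y * Y) i j‖ ≤ 1 := fun i j => by
    simpa using entry_mul_le hYi hYi i j
  have hYY : ∀ i j, ‖(Y * Y) i j‖ < 1 := by
    intro i j
    refine (hred.zero_iff _ (hYY1 i j)).1 ?_
    have h4 : (Y * Y).map red = 0 := by rw [hmulM Y Y hYi hYi, ← hN, hNN]
    have h5 := congrFun (congrFun h4 i) j
    rwa [Matrix.map_apply, Matrix.zero_apply] at h5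
  obtain ⟨q, -, hq⟩ := Finset.exists_max_image (Finset.univ : Finset (Fin 2 × Fin 2))
    (fun q => ‖(Y * Y) q.1 q.2‖) ⟨(0, 0), Finset.mem_univ _⟩
  set ω : ℝ := ‖(Y * Y) q.1 q.2‖ with hω
  have hω0 : 0 ≤ ω := norm_nonneg _
  have hω1 : ω < 1 := hYY _ _
  have hωd : ω ^ d ≤ (((m + 2 : ℕ) : ℝ))⁻¹ := hDSC (m + 2) F d hd _ hω1
  have hωe : ∀ i j, ‖(Y * Y) i j‖ ≤ ω := fun i j => hq (i, j) (Finset.mem_univ _)
  have hbig : ω ^ ((m + 2) / 2) < (((m + 2 : ℕ) : ℝ))⁻¹ := by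
    refine lt_of_pow_lt_pow_left₀ d (inv_nonneg.2 hp0.le) ?_
    rw [← pow_mul, mul_comm, pow_mul]
    refine (pow_le_pow_left₀ (pow_nonneg hω0 _) hωd _).trans_lt ?_
    refine pow_lt_pow_right_of_lt_one₀ (inv_pos.2 hp0) (inv_lt_one_of_one_lt₀ ?_) (by omega)
    exact_mod_cast (by omega : 1 < m + 2)
  set E : Matrix (Fin 2) (Fin 2) F := ∑ k ∈ Finset.range (m + 1),
      ((m + 2).choose (k + 2) : F) • Y ^ (k + 2) with hE
  set b : ℝ := max ((((m + 2 : ℕ) : ℝ))⁻¹ * ω) (ω ^ ((m + 2) / 2)) with hb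
  have hb1 : b < (((m + 2 : ℕ) : ℝ))⁻¹ := by
    refine max_lt ?_ hbig
    calc (((m + 2 : ℕ) : ℝ))⁻¹ * ω < (((m + 2 : ℕ) : ℝ))⁻¹ * 1 :=
          mul_lt_mul_of_pos_left hω1 (inv_pos.2 hp0)
      _ = _ := mul_one _
  have hb0 : 0 ≤ b := le_max_of_le_right (pow_nonneg hω0 _)
  have hEb : ∀ i j, ‖E i j‖ ≤ b := by
    intro i j
    rw [hE, Matrix.sum_apply]
    refine IsUltrametricDist.norm_sum_le_of_forall_le_of_nonneg hb0 fun k hk => ?_
    rw [Finset.mem_range] at hk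
    rw [Matrix.smul_apply, smul_eq_mul, norm_mul]
    have h6 := BUN_npow' Y hYi ω hωe (k + 2) i j
    rcases Nat.lt_or_ge (k + 2) (m + 2) with hlt | hge
    · refine le_max_of_le_left (mul_le_mul ?_ ?_ (norm_nonneg _) (inv_nonneg.2 hp0.le))
      · obtain ⟨c, hc⟩ := hp.1.dvd_choose_self (by omega : k + 2 ≠ 0) hlt
        rw [hc, Nat.cast_mul, norm_mul, norm_p (m + 2) F]
        refine mul_le_of_le_one_right (inv_nonneg.2 hp0.le) ?_
        exact IsUltrametricDist.norm_natCast_le_one F c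
      · refine h6.trans ?_
        have h7 : 1 ≤ (k + 2) / 2 := by omega
        calc ω ^ ((k + 2) / 2) ≤ ω ^ 1 := pow_le_pow_of_le_one hω0 hω1.le h7
          _ = ω := pow_one _
    · have h8 : k = m := by omega
      subst h8
      refine le_max_of_le_right ?_
      rw [Nat.choose_self, Nat.cast_one, norm_one, one_mul]
      exact h6
  have hMp : M ^ (m + 2) = (E + ((m + 2 : ℕ) : F) • Y) + (1 : F) • 1 := by
    have h9 : M = 1 + Y := by rw [hY]; abel
    rw [h9, BUN_bin Y m, one_smul]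
  rw [hMp, nu_add_scalar]
  have hpY : nu (((m + 2 : ℕ) : F) • Y) = (((m + 2 : ℕ) : ℝ))⁻¹ := by
    rw [nu_smul, hnuY, mul_one, norm_p (m + 2) F]
  have hEn : nu E < (((m + 2 : ℕ) : ℝ))⁻¹ := (nu_le_of_entry hEb).trans_lt hb1
  refine le_antisymm ?_ ?_
  · refine (nu_add_le _ _).trans (max_le hEn.le hpY.le)
  · by_contra hlt
    rw [not_le] at hlt
    have h10 : ((m + 2 : ℕ) : F) • Y = (E + ((m + 2 : ℕ) : F) • Y) + (-1 : F) • E := by
      rw [neg_one_smul]; abel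
    have h11 : nu (((m + 2 : ℕ) : F) • Y) < (((m + 2 : ℕ) : ℝ))⁻¹ := by
      rw [h10]
      refine (nu_add_le _ _).trans_lt (max_lt hlt ?_)
      rw [nu_smul, norm_neg, norm_one, one_mul]
      exact hEn
    exact absurd hpY h11.ne

end Pool.Agent.PV
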